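import Mathlib
import Pool.Agent.SkelFC.Defs
import Pool.Agent.SkelFC.Proof

namespace Pool.Agent.Results.MP_927f17_an.FiniteCodim

open Pool.Agent.SkelFC

/-- **Full answer to Q1 (yes).** Let `X` be a real or complex Banach space with a projectional
skeleton `S`.  If the subspace of the dual of `X` induced by `S` has finite codimension, then it
is a `Σ`-subspace. -/
theorem result {𝕜 : Type*} [RCLike 𝕜] {X : Type*} [NormedAddCommGroup X] [NormedSpace 𝕜 X]
    [CompleteSpace X] {Γ : Type*} [PartialOrder Γ] (S : ProjSkeleton 𝕜 X Γ)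
    (hfin : FiniteDimensional 𝕜 ((X →L[𝕜] 𝕜) ⧸ S.induced)) :
    IsSigmaSubspace (S.induced : Set (X →L[𝕜] 𝕜)) :=
  main_result S hfin

end Pool.Agent.Results.MP_927f17_an.FiniteCodim
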